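import Pool.Agent.X301.MO.C

/-!
# The structure of MO functions with partial sums `O(1 / x)`

For a multiplicative function `f` let `S_f(x) = ∑_{n ≤ x} f(n)` and let `F_p(s) = ∑_k f(p ^ k) p ^ (-k s)` be the local
factor at the prime `p`. Let `f` be an MO function with `|S_f(x)| ≤ K / x` for all `x ≥ 1`. We show that a local factor at a
prime `p ≤ (3 K + 1) ^ 2` has a zero with `Re s ≥ -1/2`, and that `f` is close to `μ(n) / n` at the primes, in the following
sense: `∑_p max(p |f(p)| - 1, 0)` and `∑_p |1 + p f(p)| ^ 2 / p` converge (the starting result `NearMoebius` says this for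
the real part: `∑_p |1 + Re (p f(p))| / p < ∞`).

For the zero: `n |f(n)| ≤ 3 K`, and for `n` the product of all primes `p` with `p |f(p)| > 1` in a finite set this gives the
convergence of the first series, so that the conditions of the starting result `LogOmega` on the values of `f` are satisfied.
-/

set_option autoImplicit false

namespace Pool.Agent.Results.MP_a187e6_nt.InverseDecay

open Filter
open Pool.Agent.TH127.MO (S IsMO)
open Pool.Agent.X301.MO (LocalFactor)

/-- **Theorem.** Let `f` be an MO function with `|S_f(x)| ≤ K / x` for all `x ≥ 1`. Then all local factors converge absolutely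
for `Re s ≥ -1/2`; some local factor at a prime `p ≤ (3 K + 1) ^ 2` has a zero with `Re s ≥ -1/2`; and
`∑_p max(p |f(p)| - 1, 0)` and `∑_p |1 + p f(p)| ^ 2 / p` converge. -/
theorem result (f : ℕ → ℂ) (hf : IsMO f) (K : ℝ) (hK : ∀ x : ℝ, 1 ≤ x → ‖S f x‖ ≤ K / x) :
    (∀ p : ℕ, p.Prime → Summable fun k : ℕ => ‖f (p ^ k)‖ * Real.sqrt ((p : ℝ) ^ k)) ∧
    (∃ p : ℕ, p.Prime ∧ (p : ℝ) ≤ (3 * K + 1) ^ 2 ∧
      ∃ s : ℂ, -(1/2) ≤ s.re ∧ LocalFactor f p s = 0) ∧
    (Summable fun p : Nat.Primes => max (((p : ℕ) : ℝ) * ‖f p‖ - 1) 0) ∧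
    Summable fun p : Nat.Primes => ‖1 + (p : ℂ) * f p‖ ^ 2 / ((p : ℕ) : ℝ) := by
  have hKn : ∀ n : ℕ, 1 ≤ n → ‖Pool.Agent.X301.MO.SS f n‖ ≤ K / n := by
    intro n hn
    rw [← Pool.Agent.X301.MO.S_nat]
    exact hK n (by exact_mod_cast hn)
  exact ⟨fun p hp => Pool.Agent.X301.MO.summable_local hKn hp,
    Pool.Agent.X301.MO.exists_zero hf.one (fun m n hm hn h => hf.mul m n hm hn h) hKn,
    Pool.Agent.X301.MO.summable_ex hf.one (fun m n hm hn h => hf.mul m n hm hn h) hKn,
    Pool.Agent.X301.MO.summable_near hf hK⟩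

end Pool.Agent.Results.MP_a187e6_nt.InverseDecay
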