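import Pool.Agent.X301.MO.G

/-!
# The partial sums of MO functions with zero-free local factors are not `O(exp((log x) ^ β) / x)`, `β < 1/2`

For a multiplicative function `f` let `S_f(x) = ∑_{n ≤ x} f(n)` and let `F_p(s) = ∑_k f(p ^ k) p ^ (-k s)` be the local
factor at the prime `p`. The starting result `LogOmega` shows `S_f(x) ≠ O(x^(-1/2) (log x)^(-A))` if the local factors have no
zeros with `Re s ≥ -1/2` and the values at the prime powers satisfy `|f(p ^ k)| ≤ (C / p) ^ k`, `Re f(p) ≥ -1 / p` (up to a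
summable error) and a condition on `f(p ^ 2)`. Without any condition on the values the best known bound for all MO functions is
`limsup x |S_f(x)| ≥ 1/2` (starting result `OmegaInverse`). Here we show, for ALL MO functions with zero-free local factors,
`limsup x exp(-(log x) ^ β) |S_f(x)| = ∞` for every `β < 1/2`.

Proof. Assume `S_f(x) = O(exp((log x) ^ β) / x)`. Then `n |f(n)| ≤ M exp((log n) ^ β)`. This inequality for
`n = ∏ p ^ k_p`, the product over all primes `p ≤ X` with `p ^ k_p |f(p ^ k_p)| > 2 ^ k_p` for some `k_p`, shows that there are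
only `O(log X)` such primes `p ≤ X`. Let `g` be the function `f` without these primes (beyond a large bound `y`), `f = g * h`; an
induction on `x` gives `S_g(x) = O(x ^ (-3/4))`. The inequality for `n` the product of all other primes `p ≤ X` with
`p |f(p)| > 1` gives `∑_{p ≤ X} max(p |g(p)| - 1, 0) = O(X ^ β)`, and the theorem of `LogOmega` applies to `g`.
-/

set_option autoImplicit false

namespace Pool.Agent.Results.MP_a187e6_nt.ZeroFreeGrowth

open Filter
open Pool.Agent.TH127.MO (S IsMO)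
open Pool.Agent.X301.MO (LocalFactor)

/-- for every `β < 1/2` and every `B` there are arbitrarily large `x` with `|S_f(x)| > B exp((log x) ^ β) / x` -/
def Grows (f : ℕ → ℂ) : Prop :=
  ∀ β : ℝ, 0 ≤ β → β < 1 / 2 → ∀ B : ℝ,
    ∃ᶠ x : ℝ in atTop, B * (Real.exp (Real.log x ^ β) / x) < ‖S f x‖

theorem grows (f : ℕ → ℂ) (f1 : f 1 = 1)
    (hmul : ∀ m n : ℕ, 1 ≤ m → 1 ≤ n → Nat.Coprime m n → f (m * n) = f m * f n)
    (hc : ∀ p : ℕ, p.Prime → ∀ s : ℂ, -(1/2) ≤ s.re → LocalFactor f p s ≠ 0) : Grows f := by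
  intro β hβ hβ2 B
  by_contra hcon
  rw [not_frequently] at hcon
  obtain ⟨B', hB'⟩ := Pool.Agent.X301.MO.global_bound f (β := β) (B := B) (by
    filter_upwards [hcon] with x hx
    exact not_lt.1 hx)
  exact Pool.Agent.X301.MO.no_growth f f1 hmul hc hβ hβ2 B' hB'

/-- **Theorem.** (1) Let `f` be an MO function whose local factors converge and have no zeros for `Re s ≥ -1/2`. Then for every
`β < 1/2` and every `B` there are arbitrarily large `x` with `|S_f(x)| > B exp((log x) ^ β) / x`. (2) This is so for all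
multiplicative `f` with such local factors. (3) It is so for all MO functions with `∑_{k ≥ 1} |f(p ^ k)| p ^ (k/2) < 1` for every
prime `p`, (4) in particular for those with `|f(p)| < p ^ (-1/2)` and `f(p ^ k) = 0`, `k ≥ 2`, for every prime `p`. -/
theorem result :
    (∀ f : ℕ → ℂ, IsMO f →
      (∀ p : ℕ, p.Prime → ∀ s : ℂ, -(1/2) ≤ s.re → LocalFactor f p s ≠ 0) → Grows f) ∧
    (∀ f : ℕ → ℂ, f 1 = 1 →
      (∀ m n : ℕ, 1 ≤ m → 1 ≤ n → Nat.Coprime m n → f (m * n) = f m * f n) →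
      (∀ p : ℕ, p.Prime → ∀ s : ℂ, -(1/2) ≤ s.re → LocalFactor f p s ≠ 0) → Grows f) ∧
    (∀ f : ℕ → ℂ, IsMO f →
      (∀ p : ℕ, p.Prime → (Summable fun k : ℕ => ‖f (p ^ k)‖ * Real.sqrt ((p : ℝ) ^ k)) ∧
        ∑' k : ℕ, ‖f (p ^ (k + 1))‖ * Real.sqrt ((p : ℝ) ^ (k + 1)) < 1) → Grows f) ∧
    (∀ f : ℕ → ℂ, IsMO f →
      (∀ p : ℕ, p.Prime → ‖f p‖ * Real.sqrt p < 1 ∧ ∀ k : ℕ, 2 ≤ k → f (p ^ k) = 0) → Grows f) := by
  have h3 : ∀ f : ℕ → ℂ, IsMO f →
      (∀ p : ℕ, p.Prime → (Summable fun k : ℕ => ‖f (p ^ k)‖ * Real.sqrt ((p : ℝ) ^ k)) ∧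
        ∑' k : ℕ, ‖f (p ^ (k + 1))‖ * Real.sqrt ((p : ℝ) ^ (k + 1)) < 1) → Grows f :=
    fun f hf h => grows f hf.one (fun m n hm hn hmn => hf.mul m n hm hn hmn) fun p hp s hs =>
      Pool.Agent.X301.MO.local_ne_zero hf.one hp (h p hp).1 (h p hp).2 s hs
  refine ⟨fun f hf => grows f hf.one (fun m n hm hn hmn => hf.mul m n hm hn hmn), grows, h3,
    fun f hf h => h3 f hf fun p hp => ?_⟩
  obtain ⟨h1, h2⟩ := h p hp
  have hz : ∀ k : ℕ, k ∉ Finset.range 2 → ‖f (p ^ k)‖ * Real.sqrt ((p : ℝ) ^ k) = 0 := by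
    intro k hk
    rw [Finset.mem_range] at hk
    rw [h2 k (by omega), norm_zero, zero_mul]
  refine ⟨summable_of_ne_finset_zero hz, ?_⟩
  rw [tsum_eq_single 0 fun k hk => by
    rw [h2 (k + 1) (by omega), norm_zero, zero_mul]]
  simpa using h1

end Pool.Agent.Results.MP_a187e6_nt.ZeroFreeGrowth
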